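import Pool.Agent.N748.MJ.Stm2

set_option autoImplicit false

/-! Project MJ (helper748), part SRF: the coefficients are divisor functions. Author: helper438. -/

namespace Pool.Agent.N438.MJ.Tau

open Finset Complex
open Pool.Agent.N748.MG Pool.Agent.N748.MJ

lemma lC_one (m : ℕ) : lC 1 m = 1 := by
  unfold lC
  refine Finset.prod_eq_one fun i _ => ?_
  rw [add_comm]
  exact div_self (by exact_mod_cast Nat.succ_ne_zero i)

lemma lC_zero {m : ℕ} (hm : m ≠ 0) : lC 0 m = 0 := by
  unfold lC
  refine Finset.prod_eq_zero (i := 0) (Finset.mem_range.2 (Nat.pos_of_ne_zero hm)) ?_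
  simp

lemma lC_z0 (s : ℂ) : lC s 0 = 1 := by simp [lC]

lemma lV_ind {k m : ℕ} {ι : Fin k → Fin m} (hι : Function.Injective ι) {s : Fin m → ℂ}
    (hs1 : ∀ i, s (ι i) = 1) (hs0 : ∀ j, j ∉ Set.range ι → s j = 0) (h : Fin m → ℝ) (p e : ℕ) :
    lV s h p e = ∑ ν ∈ Finset.piAntidiag (Finset.univ : Finset (Fin k)) e,
      ∏ i, (p : ℂ) ^ (-((ν i * h (ι i) : ℝ) * I)) := by
  classical
  have hinj : Set.InjOn (fun ν : Fin k → ℕ => Function.extend ι ν 0)
      (Finset.piAntidiag (Finset.univ : Finset (Fin k)) e : Set (Fin k → ℕ)) := by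
    intro ν _ ν' _ hν
    funext i
    have := congrFun hν (ι i)
    simp only [hι.extend_apply] at this
    exact this
  have hext : ∀ (ν : Fin k → ℕ) (j : Fin m), j ∉ Set.range ι → Function.extend ι ν 0 j = 0 := by
    intro ν j hj
    rw [Function.extend_apply' _ _ _ (by simpa using hj)]
    rfl
  have hval : ∀ ν : Fin k → ℕ,
      ∏ i, (p : ℂ) ^ (-((ν i * h (ι i) : ℝ) * I)) =
      ∏ j, lC (s j) (Function.extend ι ν 0 j) *
        (p : ℂ) ^ (-((Function.extend ι ν 0 j * h j : ℝ) * I)) := by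
    intro ν
    refine Fintype.prod_of_injective ι hι _ _ ?_ ?_
    · intro j hj
      rw [hext ν j hj, lC_z0]
      simp
    · intro i
      rw [hι.extend_apply, hs1, lC_one, one_mul]
  unfold lV
  rw [Finset.sum_congr rfl fun ν _ => hval ν, ← Finset.sum_image
    (f := fun μ : Fin m → ℕ => ∏ j, lC (s j) (μ j) * (p : ℂ) ^ (-((μ j * h j : ℝ) * I))) hinj]
  symm
  refine Finset.sum_subset ?_ ?_
  · intro μ hμ
    obtain ⟨ν, hν, rfl⟩ := Finset.mem_image.1 hμ
    rw [Finset.mem_piAntidiag] at hν ⊢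
    refine ⟨?_, fun _ _ => Finset.mem_univ _⟩
    rw [← hν.1]
    symm
    exact Fintype.sum_of_injective ι hι _ _ (fun j hj => hext ν j hj)
      fun i => (hι.extend_apply _ _ _).symm
  · intro μ hμ hμ'
    have hex : ∃ j, j ∉ Set.range ι ∧ μ j ≠ 0 := by
      by_contra hcon
      push Not at hcon
      apply hμ'
      have hμe : Function.extend ι (fun i => μ (ι i)) 0 = μ := by
        funext j
        by_cases hj : j ∈ Set.range ι
        · obtain ⟨i, rfl⟩ := hj
          rw [hι.extend_apply]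
        · rw [hext _ j hj, hcon j hj]
      refine Finset.mem_image.2 ⟨fun i => μ (ι i), ?_, hμe⟩
      rw [Finset.mem_piAntidiag] at hμ ⊢
      refine ⟨?_, fun _ _ => Finset.mem_univ _⟩
      rw [← hμ.1]
      exact Fintype.sum_of_injective ι hι _ _ (fun j hj => hcon j hj) fun i => rfl
    obtain ⟨j, hj, hj0⟩ := hex
    refine Finset.prod_eq_zero (Finset.mem_univ j) ?_
    rw [hs0 j hj, lC_zero hj0, zero_mul]

lemma cpow_prod {α : Type} (S : Finset α) (f : α → ℕ) (s : ℂ) :
    ((∏ x ∈ S, f x : ℕ) : ℂ) ^ s = ∏ x ∈ S, (f x : ℂ) ^ s := by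
  classical
  induction S using Finset.induction_on with
  | empty => simp
  | insert a S ha ih =>
    rw [Finset.prod_insert ha, Finset.prod_insert ha, ← ih, Nat.cast_mul,
      Complex.natCast_mul_natCast_cpow]

/-- the product over the primes is the divisor function -/
lemma prod_tau {k n : ℕ} (hn : n ≠ 0) (h : Fin k → ℝ) :
    ∏ p ∈ n.primeFactors, ∑ ν ∈ Finset.piAntidiag (Finset.univ : Finset (Fin k)) (n.factorization p),
      ∏ i, (p : ℂ) ^ (-((ν i * h i : ℝ) * I)) = tau (fun i => -(I * (h i : ℂ))) n := by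
  classical
  unfold tau
  rw [Finset.prod_sum]
  have hfac : ∀ e ∈ Nat.finMulAntidiag k n, ∀ i : Fin k,
      ∏ x ∈ n.primeFactors.attach, (x : ℕ) ^ ((e i).factorization x) = e i := by
    intro e he i
    have h0 : e i ≠ 0 := Nat.ne_zero_of_mem_finMulAntidiag he i
    rw [Finset.prod_attach n.primeFactors (fun x => x ^ ((e i).factorization x))]
    have h1 : (e i).factorization.support ⊆ n.primeFactors := by
      rw [Nat.support_factorization]
      exact Nat.primeFactors_mono (Nat.dvd_of_mem_finMulAntidiag he i) hn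
    conv_rhs => rw [← Nat.prod_factorization_pow_eq_self h0]
    rw [Finsupp.prod_of_support_subset _ h1 _ (by simp)]
  refine Finset.sum_nbij'
    (fun g => fun j => ∏ x ∈ n.primeFactors.attach, (x : ℕ) ^ (g x.1 x.2 j))
    (fun e => fun p _ => fun i => (e i).factorization p) ?_ ?_ ?_ ?_ ?_
  · intro g hg
    rw [Finset.mem_pi] at hg
    rw [Nat.mem_finMulAntidiag]
    refine ⟨?_, hn⟩
    rw [Finset.prod_comm]
    have h1 : ∀ x ∈ n.primeFactors.attach, ∏ j, (x : ℕ) ^ (g x.1 x.2 j) =
        (x : ℕ) ^ (n.factorization x) := by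
      intro x _
      rw [Finset.prod_pow_eq_pow_sum]
      have h2 := (Finset.mem_piAntidiag.1 (hg x.1 x.2)).1
      rw [h2]
    rw [Finset.prod_congr rfl h1, Finset.prod_attach n.primeFactors (fun x => x ^ (n.factorization x))]
    exact Nat.prod_factorization_pow_eq_self hn
  · intro e he
    rw [Finset.mem_pi]
    intro p hp
    rw [Finset.mem_piAntidiag]
    refine ⟨?_, fun _ _ => Finset.mem_univ _⟩
    have h1 := Nat.prod_eq_of_mem_finMulAntidiag he
    conv_rhs => rw [← h1]
    rw [Nat.factorization_prod_apply]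
    intro i _
    exact Nat.ne_zero_of_mem_finMulAntidiag he i
  · intro g hg
    funext p hp j
    have hx0 : ∀ x ∈ n.primeFactors.attach, (x : ℕ) ^ (g x.1 x.2 j) ≠ 0 := fun x _ =>
      pow_ne_zero _ (Nat.prime_of_mem_primeFactors x.2).ne_zero
    show (∏ x ∈ n.primeFactors.attach, (x : ℕ) ^ (g x.1 x.2 j)).factorization p = g p hp j
    rw [Nat.factorization_prod_apply hx0, Finset.sum_eq_single (⟨p, hp⟩ : n.primeFactors)]
    · rw [Nat.factorization_pow, Finsupp.smul_apply,
        (Nat.prime_of_mem_primeFactors hp).factorization_self, smul_eq_mul, mul_one]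
    · intro x _ hx
      rw [Nat.factorization_pow, Finsupp.smul_apply, Nat.factorization_eq_zero_of_not_dvd,
        smul_zero]
      intro hdvd
      have := (Nat.prime_dvd_prime_iff_eq (Nat.prime_of_mem_primeFactors hp)
        (Nat.prime_of_mem_primeFactors x.2)).1 hdvd
      exact hx (Subtype.ext this.symm)
    · intro h0
      exact absurd (Finset.mem_attach _ _) h0
  · intro e he
    funext i
    exact hfac e he i
  · intro g hg
    rw [Finset.prod_comm]
    refine Finset.prod_congr rfl fun i _ => ?_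
    rw [cpow_prod]
    refine Finset.prod_congr rfl fun x _ => ?_
    push_cast
    rw [← Complex.natCast_cpow_natCast_mul]
    congr 1
    ring

/-- the coefficients are divisor functions -/
lemma dV_tau {k m : ℕ} {ι : Fin k → Fin m} (hι : Function.Injective ι) {s : Fin m → ℂ}
    (hs1 : ∀ i, s (ι i) = 1) (hs0 : ∀ j, j ∉ Set.range ι → s j = 0) (h : Fin m → ℝ) {n : ℕ}
    (hn : n ≠ 0) : dV s h n = tau (fun i => -(I * (h (ι i) : ℂ))) n := by
  rw [← prod_tau hn (fun i => h (ι i))]
  unfold dV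
  exact Finset.prod_congr rfl fun p _ => lV_ind hι hs1 hs0 h p _

lemma conj_tau {k : ℕ} (h : Fin k → ℝ) (n : ℕ) :
    (starRingEnd ℂ) (tau (fun i => -(I * (h i : ℂ))) n) = tau (fun i => I * (h i : ℂ)) n := by
  unfold tau
  rw [map_sum]
  refine Finset.sum_congr rfl fun e _ => ?_
  rw [map_prod]
  refine Finset.prod_congr rfl fun i _ => ?_
  have harg : (((e i : ℕ) : ℂ)).arg ≠ Real.pi := by
    rw [Complex.natCast_arg]
    exact Real.pi_pos.ne
  have h1 := Complex.cpow_conj ((e i : ℕ) : ℂ) (-(I * (h i : ℂ))) harg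
  rw [Complex.conj_natCast] at h1
  rw [← h1]
  congr 1
  simp

end Pool.Agent.N438.MJ.Tau
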