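import Pool.Agent.N748.MJ.Stm2
import Pool.Agent.N748.MG.Ev

set_option autoImplicit false

/-! Project MJ (helper748), common lemmas for SRF and KS: truncation, the factors `ZZ`, continuity.
Author: helper438. -/

namespace Pool.Agent.N438.MJ.Tr

open Finset Filter MeasureTheory Topology Complex
open Pool.Agent.N748.MG Pool.Agent.N748.MJ

lemma pw_ne_one {δ : ℝ} (h0 : δ ≤ 1 / 16) (t : ℝ) : pw δ t ≠ 1 := by
  intro h
  have h1 := congrArg Complex.re h
  unfold pw at h1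
  simp at h1
  linarith

lemma contZ {δ : ℝ} (h0 : δ ≤ 1 / 16) : Continuous fun t : ℝ => riemannZeta (pw δ t) := by
  rw [continuous_iff_continuousAt]
  intro t
  have h1 : ContinuousAt riemannZeta (pw δ t) :=
    (differentiableAt_riemannZeta (pw_ne_one h0 t)).continuousAt
  have h2 : Continuous (pw δ) := by
    unfold pw
    fun_prop
  exact ContinuousAt.comp (f := fun t : ℝ => pw δ t) h1 h2.continuousAt

lemma cont {δ : ℝ} (h0 : δ ≤ 1 / 16) : Continuous fun t : ℝ => mz δ t := (contZ h0).norm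

lemma mz_nn (δ t : ℝ) : 0 ≤ mz δ t := norm_nonneg _

/-- the truncation -/
lemma trunc {ι : Type} [Fintype ι] {F : ℝ → ℂ} {G : ι → ℝ → ℝ} {N E : Set ℝ} {T a b v : ℝ}
    (hN : MeasurableSet N) (hNT : N ⊆ Set.Icc 0 T) (hE : MeasurableSet E)
    (hET : E ⊆ Set.Icc 0 T) (hG0 : ∀ i t, 0 ≤ G i t) (ha : 0 ≤ a) (hb : 0 ≤ b) (hv : 0 ≤ v)
    (hF : Continuous F) (hG : ∀ i, Continuous (G i))
    (h1 : ∀ t ∈ E, ‖F t‖ ≤ b) (h2 : ∀ t ∈ N \ E, ‖F t‖ ≤ a * ∑ i, G i t)
    (hvol : volume (Set.Icc 0 T \ N) ≤ ENNReal.ofReal v) :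
    ‖(∫ t in E, F t) - ∫ t in N, F t‖ ≤ a * (∑ i, ∫ t in N, G i t) + b * v := by
  have hFI : IntegrableOn F (Set.Icc 0 T) := hF.continuousOn.integrableOn_compact isCompact_Icc
  have hGI : ∀ i, IntegrableOn (G i) N := fun i =>
    ((hG i).continuousOn.integrableOn_compact isCompact_Icc).mono_set hNT
  have hFN : IntegrableOn F N := hFI.mono_set hNT
  have hFE : IntegrableOn F E := hFI.mono_set hET
  have e1 : (∫ t in E, F t) = (∫ t in E ∩ N, F t) + ∫ t in E \ N, F t :=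
    (integral_inter_add_sdiff hN hFE).symm
  have e2 : (∫ t in N, F t) = (∫ t in N ∩ E, F t) + ∫ t in N \ E, F t :=
    (integral_inter_add_sdiff hE hFN).symm
  have e3 : (∫ t in E, F t) - ∫ t in N, F t = (∫ t in E \ N, F t) - ∫ t in N \ E, F t := by
    rw [e1, e2, Set.inter_comm N E]
    ring
  have i3 : ‖∫ t in E \ N, F t‖ ≤ b * v := by
    have hv1 : volume (E \ N) ≤ ENNReal.ofReal v :=
      (measure_mono (Set.sdiff_subset_sdiff_left hET)).trans hvol
    have hv2 : volume (E \ N) < ⊤ := hv1.trans_lt ENNReal.ofReal_lt_top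
    have h5 := norm_setIntegral_le_of_norm_le_const (f := F) hv2 (C := b) fun t ht => h1 t ht.1
    refine h5.trans (mul_le_mul_of_nonneg_left ?_ hb)
    exact ENNReal.toReal_le_of_le_ofReal hv hv1
  have i4 : ‖∫ t in N \ E, F t‖ ≤ a * ∑ i, ∫ t in N, G i t := by
    have hS : IntegrableOn (fun t => ∑ i, G i t) N := integrable_finsetSum _ fun i _ => hGI i
    calc ‖∫ t in N \ E, F t‖ ≤ ∫ t in N \ E, ‖F t‖ := norm_integral_le_integral_norm _
      _ ≤ ∫ t in N \ E, a * ∑ i, G i t :=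
          setIntegral_mono_on (hFN.mono_set Set.sdiff_subset).norm
            ((hS.mono_set Set.sdiff_subset).const_mul a) (hN.diff hE) h2
      _ = a * ∫ t in N \ E, ∑ i, G i t := integral_const_mul _ _
      _ ≤ a * ∫ t in N, ∑ i, G i t := by
          refine mul_le_mul_of_nonneg_left ?_ ha
          exact setIntegral_mono_set hS (Eventually.of_forall fun t => Finset.sum_nonneg fun i _ => hG0 i t)
            (Set.sdiff_subset.eventuallyLE)
      _ = a * ∑ i, ∫ t in N, G i t := by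
          rw [integral_finsetSum _ fun i _ => hGI i]
  rw [e3]
  refine (norm_sub_le _ _).trans ?_
  linarith

/-! ### the factors -/

lemma ZZ_pos (z : ℂ) (k : ℕ) : ZZ z ((k : ℂ) / 2) (k : ℤ) = z ^ k := by
  unfold ZZ
  rw [mul_div_cancel₀ _ (two_ne_zero), cpow_natCast, zpow_natCast, ← mul_pow]
  rcases eq_or_ne z 0 with rfl | hz
  · simp
  · have : ((‖z‖ : ℝ) : ℂ) ≠ 0 := by
      rw [Complex.ofReal_ne_zero]
      exact norm_ne_zero_iff.2 hz
    rw [mul_div_cancel₀ _ this]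

lemma ZZ_neg (z : ℂ) (k : ℕ) : ZZ z ((k : ℂ) / 2) (-(k : ℤ)) = ((starRingEnd ℂ) z) ^ k := by
  unfold ZZ
  rw [mul_div_cancel₀ _ (two_ne_zero), cpow_natCast, zpow_neg, zpow_natCast, ← inv_pow, ← mul_pow]
  rcases eq_or_ne z 0 with rfl | hz
  · simp
  · have hn : ((‖z‖ : ℝ) : ℂ) ≠ 0 := by
      rw [Complex.ofReal_ne_zero]
      exact norm_ne_zero_iff.2 hz
    congr 1
    rw [inv_div, ← mul_div_assoc, div_eq_iff hz, ← Complex.normSq_eq_conj_mul_self,
      Complex.normSq_eq_norm_sq]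
    push_cast
    ring

lemma ZZ_zero (z : ℂ) (c : ℝ) : ZZ z (c : ℂ) 0 = ((‖z‖ ^ (2 * c) : ℝ) : ℂ) := by
  unfold ZZ
  rw [zpow_zero, mul_one, Complex.ofReal_cpow (norm_nonneg _)]
  push_cast
  rfl

lemma sp_zero {m : ℕ} (b : Fin m → ℂ) : sp b (fun _ => 0) = b := by
  funext j
  simp [sp]

lemma sm_zero {m : ℕ} (b : Fin m → ℂ) : sm b (fun _ => 0) = b := by
  funext j
  simp [sm]

/-- the integral of the absolute values -/
lemma int_real {m : ℕ} (c : Fin m → ℝ) (h : Fin m → ℝ) (δ : ℝ) (N : Set ℝ) :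
    (∫ t in N, ∏ j, ZZ (riemannZeta (pw δ (t + h j))) ((c j : ℝ) : ℂ) 0) =
      ((∫ t in N, ∏ j, mz δ (t + h j) ^ (2 * c j) : ℝ) : ℂ) := by
  rw [← integral_complex_ofReal]
  congr 1
  funext t
  rw [Complex.ofReal_prod]
  exact Finset.prod_congr rfl fun j _ => ZZ_zero _ _

lemma contG {m : ℕ} {c : Fin m → ℝ} (hc : ∀ j, 0 ≤ c j) (h : Fin m → ℝ) {δ : ℝ} (hδ : δ ≤ 1 / 16) :
    Continuous fun t : ℝ => ∏ j, mz δ (t + h j) ^ (2 * c j) := by
  refine continuous_finsetProd _ fun j _ => ?_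
  refine Continuous.rpow_const ((cont hδ).comp (continuous_id.add continuous_const)) fun t => ?_
  right
  have := hc j
  positivity

end Pool.Agent.N438.MJ.Tr
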